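import Pool.Agent.TH239.CE.Main

/-!
# Polynomial multiples approximating divisible functions in `E_Ω`

Let `Ω ⊆ ℂⁿ` be a convex domain, `T, S` analytic functionals on `Ω`, `φ = T̂ ≢ 0`, `ψ = Ŝ`, and
suppose that `ψ / φ` is entire. Then there are polynomials `P_k` with `φ P_k → ψ` in `E_Ω`: the
functionals `U_k` with the Laplace transforms `φ P_k` converge to `S` in the strong dual `H'(Ω)`.
-/

set_option autoImplicit false

open Filter Topology

namespace Pool.Agent.Results.MP_ce3242_an.PolynomialMultiples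

open Pool.Agent.TH239.CE

theorem result (n : ℕ) (Ω : Set (Fin n → ℂ)) (hΩ : IsOpen Ω) (hconv : Convex ℝ Ω)
    (hne : Ω.Nonempty) (T S : HolDual Ω) (hT : ∃ z, laplace T z ≠ 0)
    (hdiv : ∃ χ : (Fin n → ℂ) → ℂ, Differentiable ℂ χ ∧
      ∀ z, laplace S z = laplace T z * χ z) :
    ∃ (P : ℕ → MvPolynomial (Fin n) ℂ) (U : ℕ → HolDual Ω),
      (∀ k z, laplace (U k) z = laplace T z * MvPolynomial.eval z (P k)) ∧
      StrongLim U S ∧ EOLim (fun k => toEO (U k)) (toEO S) := by
  obtain ⟨χ, hχ, h⟩ := hdiv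
  obtain ⟨P, U, h1, h2⟩ := main hΩ hconv hne T S hT χ hχ (fun z => by rw [h z, mul_comm])
  refine ⟨P, U, fun k z => by rw [h1 k z, mul_comm], h2, ?_⟩
  have hc : Continuous (toEO : HolDual Ω → EO Ω) := continuous_coinduced_rng
  exact (hc.tendsto S).comp h2

end Pool.Agent.Results.MP_ce3242_an.PolynomialMultiples
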